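import Pool.Agent.H8.Ritt2

namespace Pool.Agent.Results.MP_e7950b_an.Ritt

/-- convolution on the integers -/
noncomputable def conv (f g : ℤ → ℝ) (k : ℤ) : ℝ := ∑' j, f j * g (k - j)

/-- convolution powers; the zeroth power is the unit mass at `0` -/
noncomputable def cpow (μ : ℤ → ℝ) : ℕ → ℤ → ℝ
  | 0 => fun k => if k = 0 then 1 else 0
  | n + 1 => conv μ (cpow μ n)

lemma cpow_eq (μ : ℤ → ℝ) (n : ℕ) : cpow μ n = Pool.Agent.H8.Ritt.cpow μ n := by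
  induction n with
  | zero => rfl
  | succ n ih => rw [cpow, ih]; rfl

theorem result :
    ∃ C : ℝ, ∀ μ : ℤ → ℝ, (∀ k, 0 ≤ μ k) → HasSum μ 1 → (∀ k, μ (-k) = μ k) →
      (∀ n : ℕ, μ (n + 1) ≤ μ n) → ∀ n : ℕ, 1 ≤ n →
        Summable (fun k => |cpow μ n k - cpow μ (n + 1) k|) ∧
          (n : ℝ) * ∑' k, |cpow μ n k - cpow μ (n + 1) k| ≤ C := by
  refine ⟨4322, fun μ h0 h1 hs hm n _ => ?_⟩
  obtain ⟨a, b⟩ := Pool.Agent.H8.Ritt.main μ h0 h1 hs hm n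
  rw [cpow_eq, cpow_eq]
  refine ⟨a, le_trans ?_ b⟩
  exact mul_le_mul_of_nonneg_right (by linarith) (tsum_nonneg fun _ => abs_nonneg _)

end Pool.Agent.Results.MP_e7950b_an.Ritt
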